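import Pool.Agent.H10.DG.ResDraft

/-!
# Almost all graphs are determined by their generalized spectrum (Haemers' conjecture)

The generalized spectrum of a graph `G` is the pair formed by the spectrum of the adjacency matrix
of `G` and the spectrum of the adjacency matrix of the complement of `G`.  `G` is determined by its
generalized spectrum (DGS) if every graph `H` with the same generalized spectrum is isomorphic to `G`.
We prove that the proportion of the DGS graphs among the labelled graphs on `n` vertices tends to `1`.
-/

set_option autoImplicit false

open Classical in
/-- The spectrum of a graph on a finite vertex set: the multiset of the eigenvalues of its adjacency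
matrix (the complex roots of the characteristic polynomial, with multiplicity). -/
noncomputable def Pool.Agent.Results.MP_139bb1_co.AlmostAllDGS.spectrum {V : Type} [Fintype V]
    (G : SimpleGraph V) : Multiset ℂ :=
  (G.adjMatrix ℂ).charpoly.roots

/-- `G` is determined by its generalized spectrum: every graph `H` on a finite vertex set such that
`H` and `G` have the same spectrum and the complements have the same spectrum is isomorphic to `G`. -/
def Pool.Agent.Results.MP_139bb1_co.AlmostAllDGS.IsDGS {V : Type} [Fintype V]
    (G : SimpleGraph V) : Prop :=
  ∀ (W : Type) [Fintype W] (H : SimpleGraph W),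
    Pool.Agent.Results.MP_139bb1_co.AlmostAllDGS.spectrum H =
      Pool.Agent.Results.MP_139bb1_co.AlmostAllDGS.spectrum G →
    Pool.Agent.Results.MP_139bb1_co.AlmostAllDGS.spectrum Hᶜ =
      Pool.Agent.Results.MP_139bb1_co.AlmostAllDGS.spectrum Gᶜ →
    Nonempty (G ≃g H)

namespace Pool.Agent.Results.MP_139bb1_co.AlmostAllDGS

/-- **Almost all graphs are determined by their generalized spectrum**: `d_n / g_n → 1`, where `g_n`
is the number of labelled graphs on `n` vertices and `d_n` the number of those that are determined by
their generalized spectrum. -/
theorem result :
    Filter.Tendsto (fun n : ℕ =>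
      (Nat.card {G : SimpleGraph (Fin n) // IsDGS G} : ℝ) / (Nat.card (SimpleGraph (Fin n)) : ℝ))
      Filter.atTop (nhds 1) :=
  Pool.Agent.H10.DG.tendsto_of (fun _ G => IsDGS G)
    (fun _ G h W _ H h1 h2 => Pool.Agent.H10.DG.dgs_of G h W H h1 h2)
    (Pool.Agent.H66.DG.almost_all Pool.Agent.H10.DG.stL Pool.Agent.H10.DG.stLC)

end Pool.Agent.Results.MP_139bb1_co.AlmostAllDGS
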